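import Pool.Agent.R687.GE.Generic

/-!
MP_2bf34e_al, Q1 (full answer): the limit formula for the Hilbert series of generic ideals in
exterior algebras holds for all degree tuples over fields of characteristic `0`; over an infinite
field of characteristic `p > 2` it holds exactly for the tuples of odd degrees.

Definitions: `E`, `Piece` (`Pool.Agent.R687.GE.Basic`), `genIdeal`, `hilb`
(`Pool.Agent.R687.GE.Hilb`), `Pfac` (`Pool.Agent.R687.GE.Series`), `IsGeneric`, `hilbSeries`,
`LimitFormula` (`Pool.Agent.R687.GE.Main`).
-/

namespace Pool.Agent.Results.MP_2bf34e_al.GenericExterior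

open R687.GE

/-- Over an infinite field of characteristic different from `2`, generic tuples exist, and the
limit formula holds for `(d_1, …, d_r)` if and only if the characteristic is `0` or all the `d_i`
are odd. -/
theorem result {K : Type*} [Field K] [Infinite K] (h2 : (2 : K) ≠ 0) {r : ℕ} (d : Fin r → ℕ)
    (hd : ∀ i, 1 ≤ d i) :
    (∀ n, ∃ f : Fin r → E K n, IsGeneric d f) ∧
    (LimitFormula K d ↔ (CharZero K ∨ ∀ i, Odd (d i))) := by
  refine ⟨fun n => exists_generic d, ?_, fun h => limit_pos h2 hd h⟩
  intro hlim
  by_contra hcon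
  push Not at hcon
  obtain ⟨h0, i, hi⟩ := hcon
  obtain ⟨p, hp⟩ := CharP.exists K
  rcases CharP.char_is_prime_or_zero K p with hpp | hp0
  · have : Fact p.Prime := ⟨hpp⟩
    exact limit_neg h2 hd (p := p) (Nat.not_odd_iff_even.mp hi) hlim
  · subst hp0
    exact h0 (CharP.charP_to_charZero K)

end Pool.Agent.Results.MP_2bf34e_al.GenericExterior
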